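import Pool.Agent.H17.CX.Targets

/-!
# MP_70ba79_ag, THEOREM S (surfaces): row CNT: a rational function which is not constant and has no
pole on the component
-/

set_option autoImplicit false

open MvPolynomial SC Pool.Agent.H27.LV
open Pool.Agent.H92.SF Pool.Agent.H3.SF Pool.Agent.H17.SD Pool.Agent.H17.SFG Pool.Agent.H17.CX

namespace Pool.Agent.H11.CNX

theorem Vt_zero {k F σ : Type} [Field k] [Field F] [Algebra k F] (X : σ → F)
    (G : MvPolynomial σ k) (Q : Ideal (MvPolynomial σ k)) (hQ : Q.IsPrime) (t : ℕ) :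
    Vt X G Q t 0 = (Pt (k := k) X t : Set F) := by
  ext x
  constructor
  · rintro ⟨a, p, b, ha, rfl, _⟩
    exact ⟨a, ha, rfl⟩
  · rintro ⟨a, ha, rfl⟩
    refine ⟨a, 1, a, ha, rfl, ?_, ?_⟩
    · exact fun h1 => hQ.ne_top ((Ideal.eq_top_iff_one _).2 h1)
    · rw [one_mul, pow_zero, mul_one]

theorem pf_CNT (hTIN : T_TIN) (hNZA : T_NZA) (hNZB : T_NZB) (hGCN : T_GCN) (hFMD : T_FMD)
    (hPLB : T_PLB) (hVSB : T_VSB) (hVST : T_VST) (hNUM : T_NUM) : T_CNT := by
  intro k F σ _ _ _ _ _ _ X dd m G g g' h Q Q' dh hS hQ hQ' hh hhQ hhQ'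
  obtain ⟨LL, iF, iA, ρ, W, hker, htop, hlin, hind, hint⟩ := hNZA k F σ X dd m G g Q hS hQ
  obtain ⟨c, hc, hcnd⟩ := hNZB k σ LL ρ W htop hlin hind hint
  have hN : Nrz Q ρ W c := ⟨hker, hlin, hind, hint, fun h1 => hc ((hker c).2 h1), hcnd⟩
  obtain ⟨dc, c', _, hc'Q, hgcn⟩ := hGCN k F σ LL X dd m G g Q ρ W c hS hQ hN
  obtain ⟨C, hC⟩ := hFMD k σ LL Q ρ W hQ.hom hker hlin (fun l => hind.ne_zero l) hint dc
  obtain ⟨L, hLlin, hLind⟩ := hTIN k F σ X dd m G g' Q' hS hQ'
  have hP := hPLB k F σ LL X m G Q Q' ρ h dh L hS.hG hS.G0 hker hQ.ker hQ'.ker hQ'.prime hQ.mem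
    hQ'.mem hh hhQ hhQ' hLlin hLind
  choose V hV using fun (n j : ℕ) => hVSB k F σ X G Q hQ.prime (n * m) j
  obtain ⟨n, hn, h2⟩ := hNUM m dh C dc (fun t => Module.finrank k (Pt (k := k) X t))
    (fun t => Module.finrank k (St ρ t)) (fun n j => Module.finrank k (V n j)) hS.one hP hC
    (by
      intro n
      have h3 : V n 0 = Pt (k := k) X (n * m) := by
        apply SetLike.coe_injective
        rw [hV n 0, Vt_zero X G Q hQ.prime]
      exact congrArg (fun S : Submodule k F => Module.finrank k S) h3)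
    (by
      intro n j hj
      exact hVST k F σ LL X dd m G g Q ρ hS hQ hker dc c' hc'Q hgcn (n * m) j
        (Nat.mul_le_mul_right m hj.le) (V n j) (V n (j + 1)) (hV n j) (hV n (j + 1)))
  by_contra hcon
  push Not at hcon
  have h3 : V n n ≤ Submodule.span k {aeval X G ^ n} := by
    intro x hx
    have h4 : x ∈ Vt X G Q (n * m) n := by
      rw [← hV n n]
      exact hx
    obtain ⟨a, p, b, ha, rfl, hr⟩ := h4
    obtain ⟨e, he⟩ := hcon n a p b hn ha hr
    rw [Submodule.mem_span_singleton]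
    exact ⟨e, by rw [Algebra.smul_def, he]⟩
  have h5 : Module.finrank k (V n n) ≤ Module.finrank k (Submodule.span k {aeval X G ^ n}) :=
    Submodule.finrank_mono h3
  have h6 : Module.finrank k (Submodule.span k {aeval X G ^ n}) ≤ 1 := by
    have h7 := finrank_span_le_card (R := k) ({aeval X G ^ n} : Set F)
    simpa using h7
  have h8 : 2 ≤ Module.finrank k (V n n) := h2
  omega

end Pool.Agent.H11.CNX
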